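import Pool.Agent.Q230.UE

/-!
# MP_c472bb_lc: recognising unique equality continuation instances of PCP is undecidable

An instance of the Post correspondence problem is given by two lists `H`, `G` of the same length
`n`: the images `h(i)`, `g(i)` of the letters `i < n`.  We prove that there is no algorithm which
decides whether a given instance is a unique equality continuation instance.  This holds even if
the morphism `g` is fixed, if `h` is fixed on all letters but one, and if the target alphabet is
fixed.

Method.  The starting files (`Helper247.UecPcp`) simulate a universal machine by a family of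
unique equality continuation instances, in which the computation ends by one of two end letters.
We add a second pair of end letters, with another terminal symbol.  As soon as the machine halts,
two different continuations are possible, and as long as it does not halt, the continuation is
unique.
-/

set_option autoImplicit false

namespace Pool.Agent.Results.MP_c472bb_lc.RecognitionUndecidable

open Pool.Agent Turing Relation Pool.Agent.Helper247 Pool.Agent.Helper247.Queue Pool.Agent.Q230.UE

/-- The image of the word `u` under the morphism which maps the letter `i` to the `i`-th word of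
the list `L`. -/
def app (L : List (List ℕ)) (u : List ℕ) : List ℕ := u.flatMap (fun i => L.getD i [])

/-- Comparable words: one is a prefix of the other. -/
def Comparable (X Y : List ℕ) : Prop := X <+: Y ∨ Y <+: X

/-- `(H, G)` is a unique equality continuation instance. The alphabet is
`{0, ..., H.length - 1}`. -/
def IsUEC (H G : List (List ℕ)) : Prop :=
  ∀ u : List ℕ, (∀ i ∈ u, i < H.length) →
    ∀ a b : ℕ, a < H.length → b < H.length → a ≠ b →
      Comparable (app H (u ++ [a])) (app G (u ++ [a])) →
      Comparable (app H (u ++ [b])) (app G (u ++ [b])) →
      app H u = app G u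

/-- The family of instances. -/
theorem family : ∃ (T G : List (List ℕ)) (k : ℕ) (w : ℕ → List ℕ), G.length = T.length + 1 ∧
    (∀ v ∈ T, ∀ x ∈ v, x < k) ∧ (∀ v ∈ G, ∀ x ∈ v, x < k) ∧ (∀ n, ∀ x ∈ w n, x < k) ∧
    Computable w ∧ ∀ n, IsUEC (w n :: T) G ↔ ¬ (Univ.u n).Dom := by
  classical
  obtain ⟨Λ, i1, i2, M, hM⟩ := Univ.exists_machine
  let S := Queue.Sym (TM2to1.Γ' PartrecToTM2.K' (fun _ => PartrecToTM2.Γ')) Λ
  have fK : Finite PartrecToTM2.K' := by
    refine Finite.of_injective (fun k : PartrecToTM2.K' => match k with
      | .main => (0 : Fin 4)
      | .rev => 1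
      | .aux => 2
      | .stack => 3) ?_
    intro a b h
    cases a <;> cases b <;> simp_all
  have fG : Finite (TM2to1.Γ' PartrecToTM2.K' (fun _ => PartrecToTM2.Γ')) :=
    inferInstanceAs (Finite (Bool × (PartrecToTM2.K' → Option PartrecToTM2.Γ')))
  have fS : Finite S := inferInstanceAs (Finite (Queue.Sym _ _))
  let _ : Fintype S := Fintype.ofFinite S
  let e := Fintype.equivFin (S × Bool)
  let c : S × Bool → ℕ := fun z => (e z : ℕ) + 3
  have hc : Function.Injective c := by
    intro a b hab
    have : (e a : ℕ) = (e b : ℕ) := by simpa [c] using hab
    exact e.injective (Fin.ext this)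
  have hc2 : ∀ x, 3 ≤ c x := fun x => by simp [c]
  have hck : ∀ x, c x < Fintype.card (S × Bool) + 3 := fun x => by
    have := (e x).isLt
    simp only [c]
    omega
  let P : S → S → List S := Queue.prod M
  have hP1 : ∀ x y, 2 ≤ (P x y).length ∨ P x y = [Queue.Sym.kill] := prod_length M
  have hP2 : ∀ y, (P Queue.Sym.kill y).head? ≠ some y := by
    intro y
    rcases y with b | ⟨r, b⟩ | _ | _
    · simp [P, Queue.prod]
    · intro h
      simp only [P, Queue.prod] at h
      split at h <;> simp at h
    · simp [P, Queue.prod]
    · simp [P, Queue.prod]
  let tape : ℕ → List (TM2to1.Γ' PartrecToTM2.K' (fun _ => PartrecToTM2.Γ')) := fun n =>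
    Univ.sym true .cons :: (PartrecToTM2.trNat n).reverse.map (Univ.sym false)
  let w0 : ℕ → List (S × Bool) := fun n => (initWord (tape n)).map (fun z => (z, false))
  have hw0 : ∀ n, 2 ≤ (w0 n).length := fun n => by
    simp only [w0, List.length_map]
    exact initWord_length _
  refine ⟨H2tail P c, G2 Queue.Sym.kill c, Fintype.card (S × Bool) + 3,
    fun n => 0 :: (w0 n).map c, ?_, ?_, ?_, ?_, ?_, ?_⟩
  · have := length_eq2 P Queue.Sym.kill c []
    simp only [H2, List.length_cons] at this
    exact this.symm
  · intro v hv x hx
    simp only [H2tail, List.mem_cons, List.mem_map] at hv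
    rcases hv with rfl | rfl | rfl | rfl | ⟨p, -, rfl⟩
    · simp at hx; omega
    · simp at hx; omega
    · simp at hx; omega
    · simp at hx; omega
    · obtain ⟨z, -, rfl⟩ := List.mem_map.1 hx
      exact hck z
  · intro v hv x hx
    simp only [G2, List.mem_cons, List.mem_map] at hv
    rcases hv with rfl | rfl | rfl | rfl | rfl | ⟨p, -, rfl⟩
    · simp at hx; omega
    all_goals
      simp only [List.mem_cons, List.not_mem_nil, or_false] at hx
      rcases hx with rfl | rfl
      · exact hck _
      · first
        | exact hck _
        | omega
  · intro n x hx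
    rcases List.mem_cons.1 hx with rfl | hx
    · omega
    · obtain ⟨z, -, rfl⟩ := List.mem_map.1 hx
      exact hck z
  · -- computability
    have hw : Computable (fun n => (w0 n).map c) := by
      have hd := Univ.digits_computable (fun a => c (Queue.Sym.cell (Univ.sym false a), false))
      have : (fun n => (w0 n).map c) = fun n =>
          (if (((PartrecToTM2.trNat n).map
              (fun a => c (Queue.Sym.cell (Univ.sym false a), false))).length + 1) % 2 = 0 then
            [c (Queue.Sym.mark, false), c (Queue.Sym.head default (Univ.sym true .cons), false)]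
          else [c (Queue.Sym.mark, false), c (Queue.Sym.cell default, false),
            c (Queue.Sym.head default (Univ.sym true .cons), false)]) ++
          ((PartrecToTM2.trNat n).map
            (fun a => c (Queue.Sym.cell (Univ.sym false a), false))).reverse := by
        funext n
        simp only [w0, tape, initWord, List.length_cons, List.length_map, List.length_reverse]
        split_ifs <;> simp [Function.comp_def]
      rw [this]
      have hlen := Computable.list_length.comp hd
      have hmod : Computable (fun n : ℕ => ((((PartrecToTM2.trNat n).map
              (fun a => c (Queue.Sym.cell (Univ.sym false a), false))).length + 1) % 2)) :=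
        (Primrec.nat_mod.comp (Primrec.succ.comp Primrec.id) (Primrec.const 2)).to_comp.comp hlen
      have hite : Computable (fun n : ℕ => (if (((PartrecToTM2.trNat n).map
              (fun a => c (Queue.Sym.cell (Univ.sym false a), false))).length + 1) % 2 = 0 then
            [c (Queue.Sym.mark, false), c (Queue.Sym.head default (Univ.sym true .cons), false)]
          else [c (Queue.Sym.mark, false), c (Queue.Sym.cell default, false),
            c (Queue.Sym.head default (Univ.sym true .cons), false)])) := by
        have hp : Primrec (fun m : ℕ => if m = 0 then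
            [c (Queue.Sym.mark, false), c (Queue.Sym.head default (Univ.sym true .cons), false)]
          else [c (Queue.Sym.mark, false), c (Queue.Sym.cell default, false),
            c (Queue.Sym.head default (Univ.sym true .cons), false)]) :=
          Primrec.ite (PrimrecRel.comp Primrec.eq Primrec.id (Primrec.const 0))
            (Primrec.const _) (Primrec.const _)
        exact hp.to_comp.comp hmod
      exact Computable.list_append.comp hite (Computable.list_reverse.comp hd)
    exact Computable.list_cons.comp (Computable.const 0) hw
  · intro n
    have hhalt : (∃ b, QReach (UecPcp.Phat P) (w0 n) [(Queue.Sym.kill, b)]) ↔ (Univ.u n).Dom := by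
      rw [← hM n]
      have hrep : Rep (TM0.init (tape n) : TM0.Cfg _ Λ) (initWord (tape n)) :=
        rep_init (tape n) (by simp [tape])
      rw [← rep_halts M hrep, UecPcp.reach_iff P Queue.Sym.kill (initWord (tape n))]
    rw [← hhalt]
    constructor
    · rintro h ⟨b, hb⟩
      obtain ⟨u, hu, i, j, hi, hj, hij, h1, h2, h3⟩ :=
        not_uec2 P Queue.Sym.kill c (w0 n) hb
      have hpre : ∀ {X Y : List ℕ}, X = Y → X <+: Y := by
        rintro X Y rfl
        exact List.prefix_rfl
      exact h3 (h u hu i j hi hj hij (Or.inl (hpre h1)) (Or.inl (hpre h2)))
    · intro hno u hu a b ha hb hab h1 h2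
      exact uec2 P Queue.Sym.kill c hc hc2 hP1 hP2 (w0 n) (hw0 n) hno u hu a b ha hb hab h1 h2

/-- **Recognising unique equality continuation instances is undecidable.**

1. No algorithm decides, for given lists `H`, `G` of the same length, whether `(H, G)` is a unique
   equality continuation instance.
2. There are a number `k`, a list `G` of words and a list `T` of words over the alphabet
   `{0, ..., k - 1}` such that no algorithm decides, for given words `w` over this alphabet,
   whether `(w :: T, G)` is a unique equality continuation instance. -/
theorem result :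
    (¬ ∃ P : List (List ℕ) × List (List ℕ) → Prop, ComputablePred P ∧
      ∀ H G : List (List ℕ), H.length = G.length → (P (H, G) ↔ IsUEC H G)) ∧
    (∃ (T G : List (List ℕ)) (k : ℕ), G.length = T.length + 1 ∧
      (∀ v ∈ T, ∀ x ∈ v, x < k) ∧ (∀ v ∈ G, ∀ x ∈ v, x < k) ∧
      ¬ ∃ P : List ℕ → Prop, ComputablePred P ∧
        ∀ w : List ℕ, (∀ x ∈ w, x < k) → (P w ↔ IsUEC (w :: T) G)) := by
  obtain ⟨T, G, k, w, hlen, hT, hG, hw, hcomp, huec⟩ := family
  have key : ¬ ∃ P : List ℕ → Prop, ComputablePred P ∧
        ∀ w : List ℕ, (∀ x ∈ w, x < k) → (P w ↔ IsUEC (w :: T) G) := by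
    rintro ⟨P, hP, hspec⟩
    apply Univ.u_not_computable
    refine ComputablePred.computable_of_manyOneReducible (p := fun n => (Univ.u n).Dom)
      (q := fun v => ¬ P v) ⟨w, hcomp, fun n => ?_⟩ hP.not
    change (Univ.u n).Dom ↔ ¬ P (w n)
    rw [hspec (w n) (hw n), huec n, not_not]
  refine ⟨?_, T, G, k, hlen, hT, hG, key⟩
  rintro ⟨P, hP, hspec⟩
  apply key
  refine ⟨fun v => P (v :: T, G), ?_, fun v _ => hspec (v :: T) G (by simp [hlen])⟩
  refine ComputablePred.computable_of_manyOneReducible (p := fun v : List ℕ => P (v :: T, G))
    (q := P) ⟨fun v => (v :: T, G), ?_, fun v => Iff.rfl⟩ hP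
  exact Computable.pair (Computable.list_cons.comp Computable.id (Computable.const T))
    (Computable.const G)

end Pool.Agent.Results.MP_c472bb_lc.RecognitionUndecidable
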